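import Pool.Agent.Lib.MP_dbccd7_gt.R.Mfd

/-!
# RED, part 3: lifting of maps; the reduction
-/

open scoped Manifold ContDiff Matrix Topology unitInterval

namespace Pool.Agent.Lib.MPdbccd7

namespace RedM

variable {n : ℕ} {D : ℝ} {Γ : Subgroup (Matrix.GeneralLinearGroup (Fin (n + 1)) ℝ)}

theorem exists_lift (h : GoodLattice n D Γ) {u : Qt h → Qt h} (hu : Continuous u)
    (hh : ContinuousMap.Homotopic ⟨u, hu⟩ (ContinuousMap.id (Qt h))) :
    ∃ U : E n → E n, Continuous U ∧ (∀ y, pi h (U y) = u (pi h y)) ∧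
      ∀ (γ : Γ) (y : E n), U (act (mt γ) y) = act (mt γ) (U y) := by
  obtain ⟨H⟩ := hh.symm
  have hc := (cov h).continuous
  let K : C(I × E n, Qt h) :=
    H.toContinuousMap.comp ((ContinuousMap.id I).prodMap ⟨pi h, hc⟩)
  have hKe : ∀ t y, K (t, y) = H (t, pi h y) := fun t y => rfl
  have hK0 : ∀ a, K (0, a) = pi h (ContinuousMap.id (E n) a) := by
    intro a
    rw [hKe]
    simp
  let L := (cov h).liftHomotopy K (ContinuousMap.id (E n)) hK0
  have hL : ∀ t y, pi h (L (t, y)) = H (t, pi h y) := by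
    intro t y
    have := congrFun ((cov h).liftHomotopy_lifts K (ContinuousMap.id (E n)) hK0) (t, y)
    rw [← hKe]
    exact this
  have hL0 : ∀ y, L (0, y) = y := fun y =>
    (cov h).liftHomotopy_zero K (ContinuousMap.id (E n)) hK0 y
  refine ⟨fun y => L (1, y), by fun_prop, ?_, ?_⟩
  · intro y
    rw [hL]
    simp
  · intro γ y
    have h1 : (fun t : I => L (t, act (mt γ) y)) = fun t : I => act (mt γ) (L (t, y)) := by
      apply (cov h).eq_of_comp_eq (A := I)
      · fun_prop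
      · have : Continuous fun t : I => L (t, y) := by fun_prop
        exact (continuous_act (mt γ)).comp this
      · funext t
        simp only [Function.comp_apply]
        rw [hL, pi_act, pi_act, hL]
      · change L (0, _) = act (mt γ) (L (0, y))
        rw [hL0, hL0]
    exact congrFun h1 1

/-- The lift in the charts. -/
theorem local_rep (h : GoodLattice n D Γ) {u : Qt h → Qt h} (hu : Continuous u)
    {U : E n → E n} (hU : Continuous U) (hp : ∀ y, pi h (U y) = u (pi h y)) (y : E n) :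
    ∃ e ∈ secs h, ∃ e' ∈ secs h, y ∈ e.target ∧ e (pi h y) = y ∧ pi h y ∈ e.source ∧
      e.symm y = pi h y ∧ u (pi h y) ∈ e'.source ∧ e' (u (pi h y)) = U y ∧ U y ∈ e'.target ∧
      U =ᶠ[𝓝 y] fun z => e' (u (e.symm z)) := by
  obtain ⟨e, he, h1, h2, h3⟩ := exists_sec h y
  obtain ⟨e', he', h1', h2', h3'⟩ := exists_sec h (U y)
  have hs := symm_eq h he h3
  refine ⟨e, he, e', he', h3, h2, h1, hs, by rwa [← hp], by rw [← hp]; exact h2', h3', ?_⟩
  have hc1 : ContinuousAt (fun z => u (e.symm z)) y :=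
    hu.continuousAt.comp (e.continuousAt_symm h3)
  have hm : u (e.symm y) ∈ e'.source := by rw [hs, ← hp]; exact h1'
  have hc2 : ContinuousAt (fun z => e' (u (e.symm z))) y :=
    ContinuousAt.comp (g := e') (e'.continuousAt hm) hc1
  apply loc_eq h hU.continuousAt hc2
  · rw [hs, ← hp]
    exact h2'.symm
  · have a1 : ∀ᶠ z in 𝓝 y, z ∈ e.target := e.open_target.mem_nhds h3
    have a2 : ∀ᶠ z in 𝓝 y, u (e.symm z) ∈ e'.source :=
      hc1.eventually (e'.open_source.mem_nhds hm)
    filter_upwards [a1, a2] with z b1 b2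
    rw [he' _ b2, symm_eq h he b1, hp]

theorem rep_smooth (h : GoodLattice n D Γ) {u : Qt h → Qt h}
    (hu : ContMDiff (𝓡 n) (𝓡 n) ∞ u) {e e' : OpenPartialHomeomorph (Qt h) (E n)}
    (he : e ∈ secs h) (he' : e' ∈ secs h) {x : Qt h} (hx : x ∈ e.source)
    (hux : u x ∈ e'.source) : ContDiffAt ℝ ∞ (fun z => e' (u (e.symm z))) (e x) := by
  have := isMfd h
  have hm : e ∈ IsManifold.maximalAtlas (𝓡 n) ∞ (Qt h) :=
    IsManifold.subset_maximalAtlas he
  have hm' : e' ∈ IsManifold.maximalAtlas (𝓡 n) ∞ (Qt h) :=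
    IsManifold.subset_maximalAtlas he'
  have h1 := ((contMDiffAt_iff_of_mem_maximalAtlas hm hm' hx hux).1 (hu x)).2
  simp only [modelWithCornersSelf_coe, Set.range_id, contDiffWithinAt_univ] at h1
  exact h1

theorem lift_smooth (h : GoodLattice n D Γ) {u : Qt h → Qt h}
    (hu : ContMDiff (𝓡 n) (𝓡 n) ∞ u) {U : E n → E n} (hU : Continuous U)
    (hp : ∀ y, pi h (U y) = u (pi h y)) : ContDiff ℝ ∞ U := by
  rw [contDiff_iff_contDiffAt]
  intro y
  obtain ⟨e, he, e', he', h3, h2, h1, hs, h1', h2', h3', hev⟩ :=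
    local_rep h hu.continuous hU hp y
  have := rep_smooth h hu he he' h1 h1'
  rw [h2] at this
  exact this.congr_of_eventuallyEq hev

theorem lift_imm (h : GoodLattice n D Γ) (Φ : Qt h ≃ₘ^∞⟮𝓡 n, 𝓡 n⟯ Qt h) {U : E n → E n}
    (hU : Continuous U) (hp : ∀ y, pi h (U y) = Φ (pi h y)) (y : E n) :
    Function.Injective (fderiv ℝ U y) := by
  obtain ⟨e, he, e', he', h3, h2, h1, hs, h1', h2', h3', hev⟩ :=
    local_rep h Φ.contMDiff.continuous hU hp y
  -- the local inverse
  have hx : Φ.symm (Φ (pi h y)) ∈ e.source := by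
    rw [Φ.symm_apply_apply]
    exact h1
  have hV := rep_smooth h Φ.symm.contMDiff he' he h1' hx
  rw [h2'] at hV
  have hUs : ContDiffAt ℝ ∞ U y := (lift_smooth h Φ.contMDiff hU hp).contDiffAt
  have hcomp : (fun z => (fun w => e (Φ.symm (e'.symm w))) (U z)) =ᶠ[𝓝 y] fun z => z := by
    have a1 : ∀ᶠ z in 𝓝 y, z ∈ e.target := e.open_target.mem_nhds h3
    have a2 : ∀ᶠ z in 𝓝 y, U z ∈ e'.target :=
      hU.continuousAt.eventually (e'.open_target.mem_nhds h3')
    filter_upwards [a1, a2] with z b1 b2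
    rw [symm_eq h he' b2, hp, Φ.symm_apply_apply, ← symm_eq h he b1, e.right_inv b1]
  have hd1 : HasFDerivAt (fun w => e (Φ.symm (e'.symm w)))
      (fderiv ℝ (fun w => e (Φ.symm (e'.symm w))) (U y)) (U y) :=
    (hV.differentiableAt (by simp)).hasFDerivAt
  have hd2 : HasFDerivAt U (fderiv ℝ U y) y := (hUs.differentiableAt (by simp)).hasFDerivAt
  have hd3 := (hd1.comp y hd2).congr_of_eventuallyEq hcomp.symm
  have hd4 := hd3.unique (hasFDerivAt_id y)
  intro a b hab
  have e1 := congrArg (fun T : E n →L[ℝ] E n => T a) hd4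
  have e2 := congrArg (fun T : E n →L[ℝ] E n => T b) hd4
  simp only [ContinuousLinearMap.comp_apply, ContinuousLinearMap.id_apply] at e1 e2
  rw [← e1, ← e2, hab]

theorem lap_germ {g : MF n} {f f' : E n → ℝ} {y : E n} (hf : f =ᶠ[𝓝 y] f') :
    lap g f y = lap g f' y := by
  unfold lap
  congr 1
  apply Finset.sum_congr rfl
  intro i _
  apply Finset.sum_congr rfl
  intro j _
  apply Filter.EventuallyEq.pd_eq
  filter_upwards [hf.pd j] with z hz
  rw [hz]

theorem tension_germ {g h : MF n} {F G : E n → E n} {y : E n} (hf : F =ᶠ[𝓝 y] G)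
    (k : Fin n) : tension g h F k y = tension g h G k y := by
  have hk : ∀ k, (fun z => F z k) =ᶠ[𝓝 y] fun z => G z k := by
    intro k
    filter_upwards [hf] with z hz
    rw [hz]
  unfold tension
  rw [lap_germ (hk k), hf.eq_of_nhds]
  congr 1
  apply Finset.sum_congr rfl
  intro i _
  apply Finset.sum_congr rfl
  intro j _
  apply Finset.sum_congr rfl
  intro a _
  apply Finset.sum_congr rfl
  intro b _
  rw [(hk a).pd_eq i, (hk b).pd_eq j]

end RedM

open RedM in
theorem specRed : SpecRed := by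
  intro n hn D Γ h g k hg hk s t hs ht hno
  refine ⟨Qt h, inferInstance, chS h, isMfd h, t2 h, sc h, cpt h, conn h, qmet h g hg,
    qmet h k hk, qmet_sec h g hg hs, qmet_sec h k hk ht, ?_⟩
  rintro u ⟨hsm, hharm⟩ ⟨hu, hhom⟩ ⟨Φ, hΦ⟩
  obtain ⟨U, hU, hp, heq⟩ := exists_lift h hu hhom
  apply hno U
  refine ⟨lift_smooth h hsm hU hp, ?_, ?_, ?_, ?_⟩
  · intro x x' hxx
    have h1 : u (pi h x) = u (pi h x') := by rw [← hp, ← hp, hxx]
    rw [← hΦ] at h1
    have h2 := Φ.injective h1
    obtain ⟨γ, hγ⟩ := (pi_eq_iff h _ _).1 h2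
    by_cases h1 : (γ : Matrix.GeneralLinearGroup (Fin (n + 1)) ℝ) = 1
    · have : RedM.mt γ = 1 := by
        unfold RedM.mt
        rw [h1]
        rfl
      rw [this, act_one] at hγ
      exact hγ.symm
    · exfalso
      apply h.free _ γ.2 h1 (U x')
      have := heq γ x'
      rw [hγ, hxx] at this
      exact this.symm
  · intro y
    apply lift_imm h Φ hU
    intro y
    rw [hp, hΦ]
  · intro γ hγ y
    exact heq ⟨γ, hγ⟩ y
  · intro j y
    obtain ⟨e, he, e', he', h3, h2, h1, hs', h1', h2', h3', hev⟩ := local_rep h hu hU hp y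
    rw [tension_germ hev]
    apply hharm e he e' he' y h3
    rw [hs']
    exact h1'

end Pool.Agent.Lib.MPdbccd7
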