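import Pool.Agent.Lib.MP_dbccd7_gt.SpecA
import Pool.Agent.Lib.MP_dbccd7_gt.HypFin

/-!
# RED, part 1: the quotient and the covering map
-/

open scoped Manifold ContDiff Matrix Topology

namespace Pool.Agent.Lib.MPdbccd7

namespace RedM

variable {n : ℕ} {D : ℝ} {Γ : Subgroup (Matrix.GeneralLinearGroup (Fin (n + 1)) ℝ)}

/-- The matrix of an element of the group. -/
abbrev mt (γ : Γ) : Matrix (Fin (n + 1)) (Fin (n + 1)) ℝ :=
  ((γ : Matrix.GeneralLinearGroup (Fin (n + 1)) ℝ) : Matrix (Fin (n + 1)) (Fin (n + 1)) ℝ)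

theorem lor (h : GoodLattice n D Γ) (γ : Γ) : IsLor (mt γ) := h.lor _ γ.2

/-- The action on hyperbolic space. -/
@[reducible] noncomputable def gact (h : GoodLattice n D Γ) : MulAction Γ (E n) where
  smul γ y := act (mt γ) y
  one_smul y := by
    change act (mt (1 : Γ)) y = y
    have : mt (1 : Γ) = 1 := by simp [mt]
    rw [this, act_one]
  mul_smul γ γ' y := by
    change act (mt (γ * γ')) y = act (mt γ) (act (mt γ') y)
    have : mt (γ * γ') = mt γ * mt γ' := by simp [mt]
    rw [this, act_mul (lor h γ')]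

theorem smul_def (h : GoodLattice n D Γ) (γ : Γ) (y : E n) :
    (letI := gact h; γ • y) = act (mt γ) y := rfl

theorem ccs (h : GoodLattice n D Γ) : @ContinuousConstSMul Γ (E n) _ (gact h).toSMul :=
  let _ := gact h
  ⟨fun γ => continuous_act (mt γ)⟩

theorem zz_le (h : GoodLattice n D Γ) (γ : Γ) (y : E n) :
    mt γ 0 0 ≤ 2 * y0 (act (mt γ) y) * y0 y := by
  have h1 := q_le (act (mt γ) 0) (act (mt γ) y) 0
  rw [q_act (lor h γ), q_zero_right, q_zero, q_zero_right, act_zero_zero (lor h γ)] at h1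
  linarith [h1, mul_comm (y0 y) (y0 (act (mt γ) y))]

theorem pd_smul (h : GoodLattice n D Γ) :
    @ProperlyDiscontinuousSMul Γ (E n) _ (gact h).toSMul := by
  let _ := gact h
  refine ⟨fun {K L} hK hL => ?_⟩
  obtain ⟨a, ha⟩ := (hK.image continuous_y0).bddAbove
  obtain ⟨b, hb⟩ := (hL.image continuous_y0).bddAbove
  have ha' : ∀ x ∈ K, y0 x ≤ a := fun x hx => ha ⟨x, hx, rfl⟩
  have hb' : ∀ x ∈ L, y0 x ≤ b := fun x hx => hb ⟨x, hx, rfl⟩
  have hfin := h.disc (2 * b * a)
  have hsub : {γ : Γ | ((γ • ·) '' K ∩ L).Nonempty}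
      ⊆ (fun γ : Γ => (γ : Matrix.GeneralLinearGroup (Fin (n + 1)) ℝ)) ⁻¹'
        {γ | γ ∈ Γ ∧ (γ : Matrix (Fin (n + 1)) (Fin (n + 1)) ℝ) 0 0 ≤ 2 * b * a} := by
    rintro γ ⟨z, ⟨x, hx, rfl⟩, hz⟩
    refine ⟨γ.2, ?_⟩
    have h1 := zz_le h γ x
    have h2 := ha' x hx
    have h3 : y0 (act (mt γ) x) ≤ b := hb' _ hz
    have h4 := y0_pos x
    have h5 := y0_pos (act (mt γ) x)
    calc mt γ 0 0 ≤ 2 * y0 (act (mt γ) x) * y0 x := h1
      _ ≤ 2 * b * a := by
          apply mul_le_mul (by linarith) h2 h4.le (by linarith)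
  exact (hfin.preimage (Subtype.val_injective.injOn)).subset hsub

theorem cancel (h : GoodLattice n D Γ) : @IsCancelSMul Γ (E n) (gact h).toSMul := by
  let _ := gact h
  rw [isCancelSMul_iff_eq_one_of_smul_eq]
  intro γ y hy
  by_contra hne
  exact h.free _ γ.2 (fun hh => hne (Subtype.ext hh)) y hy

/-- The orbit relation. -/
noncomputable def st (h : GoodLattice n D Γ) : Setoid (E n) := @MulAction.orbitRel Γ (E n) _ (gact h)

/-- The quotient manifold. -/
def Qt (h : GoodLattice n D Γ) : Type := Quotient (st h)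

instance (h : GoodLattice n D Γ) : TopologicalSpace (Qt h) :=
  inferInstanceAs (TopologicalSpace (Quotient (st h)))

/-- The projection. -/
noncomputable def pi (h : GoodLattice n D Γ) : E n → Qt h := Quotient.mk (st h)

theorem qcov (h : GoodLattice n D Γ) :
    @IsQuotientCoveringMap (E n) (Qt h) _ _ (pi h) Γ _ (gact h) := by
  let _ := gact h
  have := ccs h
  have := pd_smul h
  have := cancel h
  exact isQuotientCoveringMap_quotientMk_of_properlyDiscontinuousSMul (G := Γ) (E := E n)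

theorem cov (h : GoodLattice n D Γ) : IsCoveringMap (pi h) := by
  let _ := gact h
  exact (qcov h).isCoveringMap

theorem surj (h : GoodLattice n D Γ) : Function.Surjective (pi h) := Quotient.mk_surjective

theorem pi_eq_iff (h : GoodLattice n D Γ) (x y : E n) :
    pi h x = pi h y ↔ ∃ γ : Γ, act (mt γ) y = x := by
  let _ := gact h
  rw [(qcov h).apply_eq_iff_mem_orbit]
  rfl

theorem pi_act (h : GoodLattice n D Γ) (γ : Γ) (y : E n) : pi h (act (mt γ) y) = pi h y :=
  (pi_eq_iff h _ _).2 ⟨γ, rfl⟩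

theorem t2 (h : GoodLattice n D Γ) : T2Space (Qt h) := by
  let _ := gact h
  have := ccs h
  have := pd_smul h
  exact t2Space_of_properlyDiscontinuousSMul_of_t2Space (Γ := Γ) (T := E n)

theorem sc (h : GoodLattice n D Γ) : SecondCountableTopology (Qt h) := by
  let _ := gact h
  have := ccs h
  exact ContinuousConstSMul.secondCountableTopology (Γ := Γ) (T := E n)

theorem y0_compact (C : ℝ) : IsCompact {y : E n | y0 y ≤ C} := by
  apply Metric.isCompact_of_isClosed_isBounded
  · exact isClosed_le continuous_y0 continuous_const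
  · apply (Metric.isBounded_closedBall (x := (0 : E n)) (r := C)).subset
    intro y hy
    rw [mem_closedBall_zero_iff]
    exact (norm_lt_y0 y).le.trans hy

theorem cpt (h : GoodLattice n D Γ) : CompactSpace (Qt h) := by
  obtain ⟨C, hC⟩ := h.cocpt
  refine ⟨?_⟩
  have : (Set.univ : Set (Qt h)) = pi h '' {y : E n | y0 y ≤ C} := by
    symm
    apply Set.eq_univ_of_forall
    intro x
    obtain ⟨y, rfl⟩ := surj h x
    obtain ⟨γ, hγ, hy⟩ := hC y
    exact ⟨_, hy, pi_act h ⟨γ, hγ⟩ y⟩
  rw [this]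
  exact (y0_compact C).image (cov h).continuous

theorem conn (h : GoodLattice n D Γ) : ConnectedSpace (Qt h) :=
  (surj h).connectedSpace (cov h).continuous

end RedM

end Pool.Agent.Lib.MPdbccd7
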