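import Pool.Agent.Lib.MP_dbccd7_gt.R.Cov

/-!
# RED, part 2: the quotient manifold and its metrics
-/

open scoped Manifold ContDiff Matrix Topology

namespace Pool.Agent.Lib.MPdbccd7

namespace RedM

variable {n : ℕ} {D : ℝ} {Γ : Subgroup (Matrix.GeneralLinearGroup (Fin (n + 1)) ℝ)}

/-- The atlas: all local sections of the projection. -/
def secs (h : GoodLattice n D Γ) : Set (OpenPartialHomeomorph (Qt h) (E n)) :=
  {e | ∀ x ∈ e.source, pi h (e x) = x}

/-- Near every point `y` there is a section `e` with `e (π y) = y`. -/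
theorem exists_sec (h : GoodLattice n D Γ) (y : E n) :
    ∃ e ∈ secs h, pi h y ∈ e.source ∧ e (pi h y) = y ∧ y ∈ e.target := by
  obtain ⟨e, hy, he⟩ := (cov h).isLocalHomeomorph y
  refine ⟨e.symm, ?_, ?_, ?_, ?_⟩
  · intro x hx
    rw [he]
    exact e.right_inv hx
  · rw [he]
    exact e.map_source hy
  · rw [he]
    exact e.left_inv hy
  · exact hy

theorem symm_eq (h : GoodLattice n D Γ) {e : OpenPartialHomeomorph (Qt h) (E n)}
    (he : e ∈ secs h) {y : E n} (hy : y ∈ e.target) : e.symm y = pi h y := by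
  have := he (e.symm y) (e.map_target hy)
  rw [e.right_inv hy] at this
  exact this.symm

noncomputable instance chS (h : GoodLattice n D Γ) : ChartedSpace (E n) (Qt h) where
  atlas := secs h
  chartAt x := (exists_sec h (Quotient.out (s := st h) x)).choose
  mem_chart_source x := by
    have := (exists_sec h (Quotient.out (s := st h) x)).choose_spec.2.1
    have e : pi h (Quotient.out (s := st h) x) = x := Quotient.out_eq (s := st h) x
    exact Set.mem_of_eq_of_mem e.symm this
  chart_mem_atlas x := (exists_sec h (Quotient.out (s := st h) x)).choose_spec.1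

theorem mem_atlas (h : GoodLattice n D Γ) (e : OpenPartialHomeomorph (Qt h) (E n)) :
    e ∈ atlas (E n) (Qt h) ↔ e ∈ secs h := Iff.rfl

/-- Two continuous maps with the same projection which agree at a point agree near it. -/
theorem loc_eq (h : GoodLattice n D Γ) {X : Type*} [TopologicalSpace X] {F G : X → E n} {y : X}
    (hF : ContinuousAt F y) (hG : ContinuousAt G y) (h0 : F y = G y)
    (hp : ∀ᶠ z in 𝓝 y, pi h (F z) = pi h (G z)) : F =ᶠ[𝓝 y] G := by
  obtain ⟨e, hy, he⟩ := (cov h).isLocalHomeomorph (F y)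
  have h1 : ∀ᶠ z in 𝓝 y, F z ∈ e.source := hF.eventually (e.open_source.mem_nhds hy)
  have h2 : ∀ᶠ z in 𝓝 y, G z ∈ e.source :=
    hG.eventually (e.open_source.mem_nhds (h0 ▸ hy))
  filter_upwards [h1, h2, hp] with z a b c
  rw [he] at c
  exact e.injOn a b c

/-- The changes of charts are locally given by elements of the group. -/
theorem trans_eq (h : GoodLattice n D Γ) {e e' : OpenPartialHomeomorph (Qt h) (E n)}
    (he : e ∈ secs h) (he' : e' ∈ secs h) {y : E n} (hy : y ∈ (e.symm.trans e').source) :
    ∃ γ : Γ, (fun z => (e.symm.trans e') z) =ᶠ[𝓝 y] act (mt γ) := by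
  have hsrc : ∀ z ∈ (e.symm.trans e').source, pi h ((e.symm.trans e') z) = pi h z := by
    intro z hz
    rw [OpenPartialHomeomorph.trans_source, Set.mem_inter_iff] at hz
    have h1 : e.symm z = pi h z := symm_eq h he (by simpa using hz.1)
    have h2 : e.symm z ∈ e'.source := hz.2
    have h3 : (e.symm.trans e') z = e' (e.symm z) := rfl
    rw [h3, he' _ h2, h1]
  obtain ⟨γ, hγ⟩ := (pi_eq_iff h _ _).1 (hsrc y hy)
  refine ⟨γ, loc_eq h ?_ (continuous_act _).continuousAt hγ.symm ?_⟩
  · exact (e.symm.trans e').continuousAt hy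
  · filter_upwards [(e.symm.trans e').open_source.mem_nhds hy] with z hz
    rw [hsrc z hz, pi_act]

theorem isMfd (h : GoodLattice n D Γ) : IsManifold (𝓡 n) ∞ (Qt h) := by
  apply isManifold_of_contDiffOn
  intro e e' he he'
  intro y hy
  simp only [modelWithCornersSelf_coe, modelWithCornersSelf_coe_symm, Set.preimage_id,
    Set.range_id, Set.inter_univ, Function.id_comp, Function.comp_id] at hy ⊢
  obtain ⟨γ, hγ⟩ := trans_eq h he he' hy
  apply ContDiffAt.contDiffWithinAt
  exact (contDiff_act (mt γ)).contDiffAt.congr_of_eventuallyEq hγ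

/-- The metric on the quotient. -/
noncomputable def qmet (h : GoodLattice n D Γ) (g : MF n) (hg : InvMetric n Γ g) :
    RMetric n (Qt h) where
  mat _ := g
  smooth _ _ i j := (hg.smooth i j).contDiffOn
  posDef _ _ y _ := hg.posDef y
  compat e he e' he' y hy := by
    obtain ⟨γ, hγ⟩ := trans_eq h he he' hy
    have h1 : (e.symm.trans e') y = act (mt γ) y := hγ.eq_of_nhds
    have h2 : jac (e.symm.trans e') y = jac (act (mt γ)) y := by
      ext i j
      unfold jac
      rw [Matrix.of_apply, Matrix.of_apply]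
      apply Filter.EventuallyEq.pd_eq
      filter_upwards [hγ] with z hz
      rw [hz]
    rw [h1, h2]
    exact hg.inv _ γ.2 y

theorem qmet_sec (h : GoodLattice n D Γ) (g : MF n) (hg : InvMetric n Γ g) {s : Set ℝ}
    (hs : SecInE g s) : (qmet h g hg).SecIn s := by
  intro e _ y _ X Y hXY
  exact hs y X Y hXY

end RedM

end Pool.Agent.Lib.MPdbccd7
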